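import Mathlib
import Pool.Agent.Q256.VT.Fin

set_option autoImplicit false

namespace Pool.Agent.Q256.VW

open Finset
open Pool.Agent.Q256.CI
open Pool.Agent.H813R3.Voj (rho rho_pos rd rd_pos rd_le g g_nonneg sum_g_le)

/-- summability with a real exponent, arbitrary finite index type. -/
theorem summ_gen (ι : Type) [Fintype ι] [DecidableEq ι] (s : ℝ) (hs : s < -(Fintype.card ι : ℝ)) :
    Summable (fun y : ι → ℤ => ‖(fun k => (y k : ℝ))‖ ^ s) := by
  classical
  let b := Pi.basisFun ℝ ι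
  let Λ : Submodule ℤ (ι → ℝ) := Submodule.span ℤ (Set.range b)
  have hmem : ∀ y : ι → ℤ, (fun k => (y k : ℝ)) ∈ Λ := by
    intro y
    have h : (fun k => (y k : ℝ)) = ∑ k, y k • b k := by
      funext j
      simp [b, Pi.single_apply]
    rw [h]
    exact Submodule.sum_mem _ (fun k _ => Submodule.smul_mem _ _ (Submodule.subset_span ⟨k, rfl⟩))
  have hrank : Module.finrank ℤ Λ = Fintype.card ι := by
    rw [ZLattice.rank ℝ Λ]; simp
  have hs := ZLattice.summable_norm_rpow Λ s (by rw [hrank]; exact hs)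
  have hinj : Function.Injective (fun y : ι → ℤ => (⟨_, hmem y⟩ : Λ)) := by
    intro y z h
    have h1 := congrArg Subtype.val h
    funext k
    have h2 : (y k : ℝ) = z k := congrFun h1 k
    exact_mod_cast h2
  have h3 := hs.comp_injective hinj
  refine h3.congr (fun y => ?_)
  rfl

/-- the same with `max 1 ‖b‖`. -/
theorem summ_max (ι : Type) [Fintype ι] [DecidableEq ι] (s : ℝ) (hs : s < -(Fintype.card ι : ℝ)) :
    Summable (fun y : ι → ℤ => (max 1 ‖(fun k => (y k : ℝ))‖) ^ s) := by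
  classical
  have hs0 : s < 0 := lt_of_lt_of_le hs (by simp)
  have h1 := summ_gen ι s hs
  have h2 : Summable (fun y : ι → ℤ => if y = 0 then (1 : ℝ) else 0) :=
    (hasSum_ite_eq (0 : ι → ℤ) (1 : ℝ)).summable
  refine Summable.of_nonneg_of_le (fun y => by positivity) (fun y => ?_) (h1.add h2)
  by_cases hy : y = 0
  · rw [if_pos hy]
    have : (max 1 ‖(fun k => (y k : ℝ))‖) ^ s ≤ 1 :=
      Real.rpow_le_one_of_one_le_of_nonpos (le_max_left _ _) hs0.le
    have h3 : 0 ≤ ‖(fun k => (y k : ℝ))‖ ^ s := by positivity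
    linarith
  · rw [if_neg hy, add_zero]
    obtain ⟨k, hk⟩ : ∃ k, y k ≠ 0 := by
      by_contra h
      push Not at h
      exact hy (funext h)
    have h4 : (1 : ℝ) ≤ ‖(fun k => (y k : ℝ))‖ := by
      refine le_trans ?_ (norm_le_pi_norm (fun k => (y k : ℝ)) k)
      rw [Real.norm_eq_abs]
      exact_mod_cast Int.one_le_abs hk
    rw [max_eq_right h4]

/-- the weight of a tuple of nonzero integers. -/
noncomputable def ff {ι : Type} [Fintype ι] (S : Finset ℕ) (η : ℝ) (a : ι → ℤ) : ℝ :=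
  if ∀ i, a i ≠ 0 then (((∏ i, a i).natAbs : ℕ) : ℝ) ^ (-η) / rho S (∏ i, a i) else 0

theorem ff_nonneg {ι : Type} [Fintype ι] (S : Finset ℕ) (η : ℝ) (a : ι → ℤ) :
    0 ≤ ff S η a := by
  unfold ff
  split_ifs
  · positivity
  · exact le_rfl

theorem summ_ff (ι : Type) [Fintype ι] [DecidableEq ι] (S : Finset ℕ) (η : ℝ) (hη : 0 < η) :
    Summable (fun a : ι → ℤ => ff S η a) := by
  classical
  set k := Fintype.card ι with hk
  have hη1 : 0 < η / (2 * (k + 1)) := by positivity
  obtain ⟨C1, hC1, hdiv⟩ := Pool.Agent.H510R2.divisor_bound (η / (2 * (k + 1))) hη1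
  obtain ⟨C2, hC2, hg⟩ := sum_g_le (δ := η / 2) (by positivity)
  set A : ℕ := ∏ p ∈ S, (p + 1) with hA
  refine summable_of_sum_le (c := (2 * C1) ^ k * A * C2) (fun a => ff_nonneg S η a)
    (fun W => ?_)
  -- only the tuples of nonzero integers
  have h1 : ∑ a ∈ W, ff S η a = ∑ a ∈ W.filter (fun a => ∀ i, a i ≠ 0), ff S η a := by
    rw [sum_filter]
    refine sum_congr rfl (fun a _ => ?_)
    split_ifs with h
    · rfl
    · unfold ff; rw [if_neg h]
  rw [h1]
  set W' := W.filter (fun a => ∀ i, a i ≠ 0) with hW'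
  obtain ⟨N, hN⟩ : ∃ N : ℕ, ∀ a ∈ W', (∏ i, a i).natAbs ≤ N :=
    ⟨W'.sup (fun a => (∏ i, a i).natAbs), fun a ha =>
      Finset.le_sup (f := fun a : ι → ℤ => (∏ i, a i).natAbs) ha⟩
  have hmaps : ∀ a ∈ W', (∏ i, a i).natAbs ∈ Icc 1 N := by
    intro a ha
    rw [mem_Icc]
    refine ⟨?_, hN a ha⟩
    rw [hW', mem_filter] at ha
    have h4 : (∏ i, a i) ≠ 0 := prod_ne_zero_iff.2 (fun i _ => ha.2 i)
    have := Int.natAbs_pos.2 h4
    omega
  rw [← sum_fiberwise_of_maps_to hmaps]
  have hone : ∀ m ∈ Icc 1 N, ∑ a ∈ W' with (∏ i, a i).natAbs = m, ff S η a ≤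
      (2 * C1) ^ k * A * g (η / 2) m := by
    intro m hm
    rw [mem_Icc] at hm
    have hm0 : (0 : ℝ) < m := by exact_mod_cast hm.1
    have hval : ∀ a ∈ ({a ∈ W' | (∏ i, a i).natAbs = m} : Finset (ι → ℤ)), ff S η a =
        (m : ℝ) ^ (-η) / rho S (m : ℤ) := by
      intro a ha
      rw [mem_filter, hW', mem_filter] at ha
      unfold ff
      rw [if_pos ha.1.2, ← VT.rho_natAbs S (∏ i, a i), ha.2]
    rw [sum_congr rfl hval, sum_const, nsmul_eq_mul]
    have hcard : #({a ∈ W' | (∏ i, a i).natAbs = m} : Finset (ι → ℤ)) ≤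
        (2 * #(m.divisors)) ^ k := by
      let D : Finset ℤ := (m.divisors.image (fun k : ℕ => (k : ℤ))) ∪
        (m.divisors.image (fun k : ℕ => -(k : ℤ)))
      have hD : #D ≤ 2 * #(m.divisors) := by
        refine (card_union_le _ _).trans ?_
        have := card_image_le (s := m.divisors) (f := fun k : ℕ => (k : ℤ))
        have := card_image_le (s := m.divisors) (f := fun k : ℕ => -(k : ℤ))
        omega
      have hsub : ({a ∈ W' | (∏ i, a i).natAbs = m} : Finset (ι → ℤ)) ⊆
          Fintype.piFinset (fun _ : ι => D) := by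
        intro v hv
        rw [mem_filter] at hv
        rw [Fintype.mem_piFinset]
        intro i
        have h5 : (∏ i, v i).natAbs = ∏ i, (v i).natAbs := map_prod Int.natAbsHom v univ
        have h6 : (v i).natAbs ∣ m := by
          rw [← hv.2, h5]; exact dvd_prod_of_mem _ (mem_univ i)
        have h7 : (v i).natAbs ∈ m.divisors := Nat.mem_divisors.2 ⟨h6, by omega⟩
        rw [mem_union, mem_image, mem_image]
        rcases Int.natAbs_eq (v i) with h8 | h8
        · left; exact ⟨_, h7, h8.symm⟩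
        · right; exact ⟨_, h7, h8.symm⟩
      refine (card_le_card hsub).trans ?_
      rw [Fintype.card_piFinset, prod_const, card_univ]
      exact Nat.pow_le_pow_left hD k
    have hcardR : (#({a ∈ W' | (∏ i, a i).natAbs = m} : Finset (ι → ℤ)) : ℝ) ≤
        (2 * C1) ^ k * (m : ℝ) ^ (η / 2) := by
      have h3 : (#({a ∈ W' | (∏ i, a i).natAbs = m} : Finset (ι → ℤ)) : ℝ) ≤
          ((2 * #(m.divisors) : ℕ) : ℝ) ^ k := by exact_mod_cast hcard
      refine h3.trans ?_
      have h4 := hdiv m hm.1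
      calc ((2 * #(m.divisors) : ℕ) : ℝ) ^ k ≤ (2 * C1 * (m : ℝ) ^ (η / (2 * (k + 1)))) ^ k := by
            push_cast
            refine pow_le_pow_left₀ (by positivity) ?_ k
            calc (2 : ℝ) * #(m.divisors) ≤ 2 * (C1 * (m : ℝ) ^ (η / (2 * (k + 1)))) := by linarith
              _ = _ := by ring
        _ = (2 * C1) ^ k * (m : ℝ) ^ (η / (2 * (k + 1)) * k) := by
            rw [mul_pow, ← Real.rpow_natCast ((m : ℝ) ^ (η / (2 * (k + 1)))) k,
              ← Real.rpow_mul (by positivity)]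
        _ ≤ (2 * C1) ^ k * (m : ℝ) ^ (η / 2) := by
            refine mul_le_mul_of_nonneg_left ?_ (by positivity)
            refine Real.rpow_le_rpow_of_exponent_le (by exact_mod_cast hm.1) ?_
            rw [div_mul_eq_mul_div, div_le_div_iff₀ (by positivity) (by norm_num)]
            have : (0 : ℝ) ≤ k := Nat.cast_nonneg k
            nlinarith
    have hrho : (1 : ℝ) / rho S (m : ℤ) ≤ A / rd m := by
      have h2 := rd_le S (m : ℤ)
      rw [Int.natAbs_natCast] at h2
      have h3 : (rd m : ℝ) ≤ A * rho S (m : ℤ) := by exact_mod_cast h2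
      have h4 : (0 : ℝ) < rd m := by exact_mod_cast rd_pos m
      have h5 : (0 : ℝ) < rho S (m : ℤ) := by exact_mod_cast rho_pos S _
      rw [div_le_div_iff₀ h5 h4]; linarith
    calc (#({a ∈ W' | (∏ i, a i).natAbs = m} : Finset (ι → ℤ)) : ℝ) *
          ((m : ℝ) ^ (-η) / rho S (m : ℤ))
        = (#({a ∈ W' | (∏ i, a i).natAbs = m} : Finset (ι → ℤ)) : ℝ) *
          ((m : ℝ) ^ (-η) * (1 / rho S (m : ℤ))) := by ring
      _ ≤ ((2 * C1) ^ k * (m : ℝ) ^ (η / 2)) * ((m : ℝ) ^ (-η) * (A / rd m)) := by gcongr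
      _ = (2 * C1) ^ k * A * (((m : ℝ) ^ (η / 2) * (m : ℝ) ^ (-η)) / rd m) := by ring
      _ = _ := by
          rw [← Real.rpow_add hm0]
          unfold g
          congr 3
          ring
  refine (sum_le_sum hone).trans ?_
  rw [← mul_sum]
  exact mul_le_mul_of_nonneg_left (hg N) (by positivity)

end Pool.Agent.Q256.VW
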