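import Mathlib
import Pool.Agent.Q256.VW.Sum

set_option autoImplicit false

namespace Pool.Agent.Q256.VW

open Finset
open Pool.Agent.Q256.CI
open Pool.Agent.H813R3.Voj (rho rho_pos)

/-- the weight of a point. -/
noncomputable def ww {n : ℕ} (S : Finset ℕ) (K : Finset (Fin (n + 1))) (ε : ℝ)
    (y : Fin (n + 1) → ℤ) : ℝ :=
  if ∀ i ∈ K, y i ≠ 0 then
    ‖(fun k => (y k : ℝ))‖ ^ ((#K : ℝ) - n - 1 - ε) / rho S (∏ i ∈ K, y i) else 0

theorem ww_nonneg {n : ℕ} (S : Finset ℕ) (K : Finset (Fin (n + 1))) (ε : ℝ)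
    (y : Fin (n + 1) → ℤ) : 0 ≤ ww S K ε y := by
  unfold ww
  split_ifs
  · positivity
  · exact le_rfl

theorem summ_ww {n : ℕ} (S : Finset ℕ) (K : Finset (Fin (n + 1))) (ε : ℝ) (hε : 0 < ε) :
    Summable (ww (n := n) S K ε) := by
  classical
  set η : ℝ := ε / (2 * (n + 1)) with hη
  have hη0 : 0 < η := by positivity
  have hKn : #K ≤ n + 1 := by simpa using card_le_univ K
  have hcardc : (Fintype.card {i // ¬ i ∈ K} : ℝ) = n + 1 - #K := by
    have h1 : Fintype.card {i // ¬ i ∈ K} = n + 1 - #K := by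
      rw [Fintype.card_subtype_compl]
      simp
    rw [h1, Nat.cast_sub hKn]; push_cast; ring
  set s' : ℝ := -((n : ℝ) + 1 - #K) - ε / 2 with hs'
  have hs'lt : s' < -(Fintype.card {i // ¬ i ∈ K} : ℝ) := by rw [hs', hcardc]; linarith
  have hs'0 : s' < 0 := lt_of_lt_of_le hs'lt (by simp)
  have hf := summ_ff {i // i ∈ K} S η hη0
  have hg := summ_max {i // ¬ i ∈ K} s' hs'lt
  have hfg := hf.mul_of_nonneg hg (fun a => ff_nonneg S η a) (fun b => by positivity)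
  have hcomp := hfg.comp_injective
    (Equiv.piEquivPiSubtypeProd (fun i => i ∈ K) (fun _ : Fin (n + 1) => ℤ)).injective
  refine Summable.of_nonneg_of_le (fun y => ww_nonneg S K ε y) (fun y => ?_) hcomp
  change ww S K ε y ≤ ff S η (fun i : {i // i ∈ K} => y i) *
    (max 1 ‖(fun k : {i // ¬ i ∈ K} => (y k : ℝ))‖) ^ s'
  have hexp : ((#K : ℝ) - n - 1 - ε) < 0 := by
    have : (#K : ℝ) ≤ n + 1 := by exact_mod_cast hKn
    linarith
  by_cases hall : ∀ i ∈ K, y i ≠ 0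
  swap
  · unfold ww
    rw [if_neg hall]
    exact mul_nonneg (ff_nonneg _ _ _) (by positivity)
  by_cases hy : y = 0
  · have : ww S K ε y = 0 := by
      unfold ww
      rw [if_pos hall, hy]
      have : ‖(fun k : Fin (n + 1) => (((0 : Fin (n + 1) → ℤ) k : ℤ) : ℝ))‖ = 0 := by
        simp
      rw [this, Real.zero_rpow hexp.ne, zero_div]
    rw [this]
    exact mul_nonneg (ff_nonneg _ _ _) (by positivity)
  have hy1 : (1 : ℝ) ≤ ‖(fun k => (y k : ℝ))‖ := by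
    rw [norm_eq_qq]
    exact_mod_cast qq_pos y hy
  have hy0 : (0 : ℝ) < ‖(fun k => (y k : ℝ))‖ := by linarith
  unfold ww ff
  rw [if_pos hall, if_pos (fun i : {i // i ∈ K} => hall i.1 i.2)]
  have hprod : ∏ i : {i // i ∈ K}, y i = ∏ i ∈ K, y i := by
    rw [← Finset.prod_coe_sort K (fun i => y i)]
  rw [hprod]
  have h1 : ‖(fun k => (y k : ℝ))‖ ^ s' ≤
      (max 1 ‖(fun k : {i // ¬ i ∈ K} => (y k : ℝ))‖) ^ s' := by
    refine Real.rpow_le_rpow_of_nonpos (by positivity) ?_ hs'0.le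
    refine max_le hy1 ?_
    rw [pi_norm_le_iff_of_nonneg hy0.le]
    intro k
    exact norm_le_pi_norm (fun k => (y k : ℝ)) k.1
  have hne : (∏ i ∈ K, y i) ≠ 0 := prod_ne_zero_iff.2 hall
  have hV0 : (0 : ℝ) < (((∏ i ∈ K, y i).natAbs : ℕ) : ℝ) := by
    exact_mod_cast Int.natAbs_pos.2 hne
  have h2 : (((∏ i ∈ K, y i).natAbs : ℕ) : ℝ) ≤ ‖(fun k => (y k : ℝ))‖ ^ (n + 1) := by
    have e1 : (((∏ i ∈ K, y i).natAbs : ℕ) : ℝ) = ∏ i ∈ K, |(y i : ℝ)| := by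
      rw [Nat.cast_natAbs, Finset.abs_prod]
      push_cast
      rfl
    rw [e1]
    calc ∏ i ∈ K, |(y i : ℝ)| ≤ ∏ _i ∈ K, ‖(fun k => (y k : ℝ))‖ := by
          refine prod_le_prod (fun i _ => abs_nonneg _) (fun i _ => ?_)
          exact norm_le_pi_norm (fun k => (y k : ℝ)) i
      _ = ‖(fun k => (y k : ℝ))‖ ^ #K := by rw [prod_const]
      _ ≤ ‖(fun k => (y k : ℝ))‖ ^ (n + 1) := pow_le_pow_right₀ hy1 hKn
  have h3 : ‖(fun k => (y k : ℝ))‖ ^ (-(ε / 2)) ≤ (((∏ i ∈ K, y i).natAbs : ℕ) : ℝ) ^ (-η) := by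
    have e1 : (‖(fun k => (y k : ℝ))‖ ^ (n + 1)) ^ (-η) = ‖(fun k => (y k : ℝ))‖ ^ (-(ε / 2)) := by
      rw [← Real.rpow_natCast, ← Real.rpow_mul hy0.le]
      congr 1
      rw [hη]
      push_cast
      field_simp
    rw [← e1]
    exact Real.rpow_le_rpow_of_nonpos hV0 h2 (by linarith)
  have h4 : ‖(fun k => (y k : ℝ))‖ ^ ((#K : ℝ) - n - 1 - ε) =
      ‖(fun k => (y k : ℝ))‖ ^ (-(ε / 2)) * ‖(fun k => (y k : ℝ))‖ ^ s' := by
    rw [← Real.rpow_add hy0]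
    congr 1
    rw [hs']; ring
  rw [h4, div_mul_eq_mul_div]
  have h5 : (0 : ℝ) < rho S (∏ i ∈ K, y i) := by exact_mod_cast rho_pos S _
  exact div_le_div_of_nonneg_right (mul_le_mul h3 h1 (by positivity) (by positivity)) h5.le

end Pool.Agent.Q256.VW
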