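import Mathlib
import Pool.Agent.Q256.VW.Sum2

set_option autoImplicit false

namespace Pool.Agent.Q256.VW

open Finset MvPolynomial
open Pool.Agent.Q256.CI Pool.Agent.Q256.VT
open Pool.Agent.H813R3.Voj (rho rho_pos)

/-- systems in the boxes with a common zero `y`, cut out by small hyperplanes, at which the
coordinates in `K` are nonzero and have a small radical. -/
def SW {n s : ℕ} (S : Finset ℕ) (e : Fin s → ℕ) (K : Finset (Fin (n + 1))) (H T : ℕ)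
    (R : (Fin (n + 1) → ℤ) → ℝ) : Set (Fin s → MvPolynomial (Fin (n + 1)) ℤ) :=
  {G | (∀ j, G j ∈ Box n (e j) H) ∧ ∃ y : Fin (n + 1) → ℤ, Prim y ∧
    CutOut T (fun k => (y k : ℚ)) ∧ (∀ j, eval y (G j) = 0) ∧ (∀ i ∈ K, y i ≠ 0) ∧
    (rho S (∏ i ∈ K, y i) : ℝ) ≤ R y}

theorem sw_finite {n s : ℕ} (S : Finset ℕ) (e : Fin s → ℕ) (K : Finset (Fin (n + 1))) (H T : ℕ)
    (R : (Fin (n + 1) → ℤ) → ℝ) : (SW S e K H T R).Finite := by
  refine (Set.Finite.pi' (fun i => finite_box n (e i) H)).subset ?_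
  rintro F ⟨h, _⟩ i
  exact h i

theorem main_countW {n s : ℕ} (S : Finset ℕ) (e : Fin s → ℕ) (K : Finset (Fin (n + 1))) (ε : ℝ)
    (hε : 0 < ε) :
    ∃ C : ℝ, 0 ≤ C ∧ ∀ (lam δ : ℝ) (H T : ℕ), 0 ≤ lam → 1 ≤ T → H ≤ T →
      (Nat.card (SW (n := n) S e K H T (fun y => lam * ((T : ℝ) ^ ((s : ℝ) - δ) *
        ((qq y : ℕ) : ℝ) ^ ((∑ j, (e j : ℝ)) + #K - n - 1 - ε)))) : ℝ) ≤
        C * lam * (T : ℝ) ^ ((∑ j, ((n + e j).choose n : ℝ)) - δ) := by
  classical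
  set D : ℕ := ∑ j, e j with hD
  have hDr : (∑ j, (e j : ℝ)) = D := by rw [hD]; push_cast; rfl
  set P : ℝ := ∏ j, Pool.Agent.Q256.CI.K n (e j) with hP
  have hP0 : 0 ≤ P := prod_nonneg (fun i _ => K_nonneg n (e i))
  refine ⟨P * ∑' y : Fin (n + 1) → ℤ, ww S K ε y, ?_, ?_⟩
  · exact mul_nonneg hP0 (tsum_nonneg (fun y => ww_nonneg S K ε y))
  intro lam δ H T hlam hT hHT
  set Rf : (Fin (n + 1) → ℤ) → ℝ := fun y => lam * ((T : ℝ) ^ ((s : ℝ) - δ) *
        ((qq y : ℕ) : ℝ) ^ ((∑ j, (e j : ℝ)) + #K - n - 1 - ε)) with hRf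
  have hTr : (1 : ℝ) ≤ T := by exact_mod_cast hT
  have hT0 : (0 : ℝ) < T := by linarith
  have key : ∀ F : Fin s → MvPolynomial (Fin (n + 1)) ℤ, ∃ y : Fin (n + 1) → ℤ,
      F ∈ SW (n := n) S e K H T Rf → Prim y ∧ CutOut T (fun k => (y k : ℚ)) ∧
        (∀ j, F j ∈ VanC n (e j) H y 0) ∧ (∀ i ∈ K, y i ≠ 0) ∧
        (rho S (∏ i ∈ K, y i) : ℝ) ≤ Rf y := by
    intro F
    by_cases hF : F ∈ SW (n := n) S e K H T Rf
    · obtain ⟨h1, y, h2, h3, h4, h5, h6⟩ := hF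
      exact ⟨y, fun _ => ⟨h2, h3, fun j => ⟨h1 j, h4 j⟩, h5, h6⟩⟩
    · exact ⟨0, fun h => absurd h hF⟩
  choose Y hY using key
  let B : Finset (Fin s → MvPolynomial (Fin (n + 1)) ℤ) :=
    (sw_finite (n := n) S e K H T Rf).toFinset
  have hB : ∀ F, F ∈ B ↔ F ∈ SW (n := n) S e K H T Rf := fun F => Set.Finite.mem_toFinset _
  have hcard : Nat.card (SW (n := n) S e K H T Rf) = #B := by
    rw [Nat.card_coe_set_eq, Set.ncard_eq_toFinset_card _ (sw_finite (n := n) S e K H T Rf)]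
  rw [hcard, card_eq_sum_card_image Y B]
  push_cast
  set E : ℝ := (∑ j, ((n + e j).choose n : ℝ)) - δ with hE
  have hone : ∀ y ∈ B.image Y, (#{F ∈ B | Y F = y} : ℝ) ≤
      P * lam * (T : ℝ) ^ E * ww S K ε y := by
    intro y hy
    obtain ⟨F0, hF0, rfl⟩ := Finset.mem_image.1 hy
    obtain ⟨hprim, hcut, -, hK, hrho⟩ := hY F0 ((hB F0).1 hF0)
    set y := Y F0 with hydef
    obtain ⟨L, hL, hind, horth⟩ := hcut
    obtain ⟨k0, hk0⟩ := exists_qq y
    have hq1 : 1 ≤ qq y := qq_pos y hprim.ne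
    have hq0 : (0 : ℝ) < ((qq y : ℕ) : ℝ) := by exact_mod_cast hq1
    have hsub : {F ∈ B | Y F = y} ⊆
        Fintype.piFinset (fun j => (finite_vanC n (e j) H y 0).toFinset) := by
      intro F hF
      rw [Finset.mem_filter] at hF
      rw [Fintype.mem_piFinset]
      intro i
      rw [Set.Finite.mem_toFinset]
      have := (hY F ((hB F).1 hF.1)).2.2.1 i
      rwa [hF.2] at this
    have h6 : (#{F ∈ B | Y F = y} : ℝ) ≤ ∏ j, (Nat.card (VanC n (e j) H y 0) : ℝ) := by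
      have h7 := card_le_card hsub
      rw [Fintype.card_piFinset] at h7
      have h8 : ∀ i, #((finite_vanC n (e i) H y 0).toFinset) =
          Nat.card (VanC n (e i) H y 0) := by
        intro i
        rw [Nat.card_coe_set_eq, Set.ncard_eq_toFinset_card _ (finite_vanC n (e i) H y 0)]
      simp_rw [h8] at h7
      exact_mod_cast h7
    have h9 : ∏ j, (Nat.card (VanC n (e j) H y 0) : ℝ) ≤
        ∏ j, (Pool.Agent.Q256.CI.K n (e j) * (T : ℝ) ^ ((n + e j).choose n - 1) *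
          (((qq y : ℕ) : ℝ) ^ e j)⁻¹) := by
      refine prod_le_prod (fun i _ => Nat.cast_nonneg _) (fun i _ => ?_)
      exact countC_real y hprim (qq y) hq1 k0 hk0 T hT L hL hind horth (e i) H hHT 0
    have h5 : ∏ j, (Pool.Agent.Q256.CI.K n (e j) * (T : ℝ) ^ ((n + e j).choose n - 1) *
        (((qq y : ℕ) : ℝ) ^ e j)⁻¹) =
        P * (T : ℝ) ^ ((∑ j, ((n + e j).choose n : ℝ)) - s) * ((qq y : ℕ) : ℝ) ^ (-(D : ℝ)) := by
      rw [prod_mul_distrib, prod_mul_distrib,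
        prod_pow_eq_pow_sum univ (fun j => (n + e j).choose n - 1) (T : ℝ), prod_inv_distrib,
        prod_pow_eq_pow_sum univ e ((qq y : ℕ) : ℝ), Real.rpow_neg hq0.le,
        Real.rpow_natCast]
      congr 2
      rw [← Real.rpow_natCast]
      congr 1
      have : ((∑ j, ((n + e j).choose n - 1) : ℕ) : ℝ) = ∑ j, (((n + e j).choose n : ℝ) - 1) := by
        push_cast
        refine sum_congr rfl (fun i _ => ?_)
        rw [Nat.cast_sub (Nat.choose_pos (Nat.le_add_right _ _))]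
        simp
      rw [this, sum_sub_distrib]
      simp
    have h10 := (h6.trans h9).trans (le_of_eq h5)
    have hrho0 : (0 : ℝ) < rho S (∏ i ∈ K, y i) := by exact_mod_cast rho_pos S _
    have h11 : (1 : ℝ) ≤ Rf y / rho S (∏ i ∈ K, y i) := by
      rw [le_div_iff₀ hrho0, one_mul]; exact hrho
    have h12 : (0 : ℝ) ≤ P * (T : ℝ) ^ ((∑ j, ((n + e j).choose n : ℝ)) - s) *
        ((qq y : ℕ) : ℝ) ^ (-(D : ℝ)) := by positivity
    refine h10.trans ((le_mul_of_one_le_right h12 h11).trans (le_of_eq ?_))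
    unfold ww
    rw [if_pos hK, norm_eq_qq]
    have h13 : Rf y = lam * ((T : ℝ) ^ ((s : ℝ) - δ) *
        ((qq y : ℕ) : ℝ) ^ ((∑ j, (e j : ℝ)) + #K - n - 1 - ε)) := rfl
    rw [h13]
    have h14 : (T : ℝ) ^ E = (T : ℝ) ^ ((∑ j, ((n + e j).choose n : ℝ)) - s) *
        (T : ℝ) ^ ((s : ℝ) - δ) := by
      rw [← Real.rpow_add hT0]; congr 1; rw [hE]; ring
    have h15 : ((qq y : ℕ) : ℝ) ^ ((#K : ℝ) - n - 1 - ε) = ((qq y : ℕ) : ℝ) ^ (-(D : ℝ)) *
        ((qq y : ℕ) : ℝ) ^ ((∑ j, (e j : ℝ)) + #K - n - 1 - ε) := by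
      rw [← Real.rpow_add hq0]; congr 1; rw [hDr]; ring
    rw [h14, h15]
    ring
  calc ∑ y ∈ B.image Y, (#{F ∈ B | Y F = y} : ℝ)
      ≤ ∑ y ∈ B.image Y, P * lam * (T : ℝ) ^ E * ww S K ε y := sum_le_sum hone
    _ = P * lam * (T : ℝ) ^ E * ∑ y ∈ B.image Y, ww S K ε y := by rw [mul_sum]
    _ ≤ P * lam * (T : ℝ) ^ E * ∑' y : Fin (n + 1) → ℤ, ww S K ε y := by
        refine mul_le_mul_of_nonneg_left ?_ (by positivity)
        exact (summ_ww S K ε hε).sum_le_tsum _ (fun y _ => ww_nonneg S K ε y)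
    _ = _ := by ring

end Pool.Agent.Q256.VW
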