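import Mathlib
import Pool.Agent.Q256.VW.Main

set_option autoImplicit false

namespace Pool.Agent.Q256.VW

open Finset MvPolynomial
open Pool.Agent.Q256.CI Pool.Agent.Q256.VT
open Pool.Agent.H813R3.Voj (rho rho_pos)

/-- the truncated counting function of the divisor `∑_{i ∈ K} {x_i = 0}` at the point with coprime
coordinates `y`: the sum of `log p` over the primes `p` outside `S` which divide one of the `y i`,
`i ∈ K`. -/
noncomputable def N1K {n : ℕ} (S : Finset ℕ) (K : Finset (Fin (n + 1)))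
    (y : Fin (n + 1) → ℤ) : ℝ :=
  ∑ p ∈ (∏ i ∈ K, y i).natAbs.primeFactors \ S, Real.log (p : ℝ)

/-- the systems of forms `G` (defining `X`) for which the inequality fails at some rational point of
`X` outside the coordinate hyperplanes in `K` which is cut out by hyperplanes with coefficients at
most `T`. -/
def FailsW {n s : ℕ} (S : Finset ℕ) (e : Fin s → ℕ) (K : Finset (Fin (n + 1))) (H T : ℕ)
    (ε δ : ℝ) : Set (Fin s → MvPolynomial (Fin (n + 1)) ℤ) :=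
  {G | (∀ j, G j ∈ Box n (e j) H) ∧ ∃ y : Fin (n + 1) → ℤ, Prim y ∧
    CutOut T (fun k => (y k : ℚ)) ∧ (∀ j, eval y (G j) = 0) ∧ (∀ i ∈ K, y i ≠ 0) ∧
    N1K S K y < ((∑ j, (e j : ℝ)) + #K - (n + 1) - ε) * ht y + ((s : ℝ) - δ) * Real.log T}

/-- the systems of forms with a zero `y`, cut out by hyperplanes with coefficients at most `T`, whose
coordinates in `K` are nonzero and, outside `S`, `m i`-full. -/
def CampW {n s : ℕ} (S : Finset ℕ) (e : Fin s → ℕ) (K : Finset (Fin (n + 1)))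
    (m : Fin (n + 1) → ℕ) (H T : ℕ) : Set (Fin s → MvPolynomial (Fin (n + 1)) ℤ) :=
  {G | (∀ j, G j ∈ Box n (e j) H) ∧ ∃ y : Fin (n + 1) → ℤ, Prim y ∧
    CutOut T (fun k => (y k : ℚ)) ∧ (∀ j, eval y (G j) = 0) ∧
    ∀ i ∈ K, y i ≠ 0 ∧ ∀ p : ℕ, p.Prime → p ∉ S → (p : ℤ) ∣ y i → (p : ℤ) ^ m i ∣ y i}

/-- the systems of forms with a zero `y`, cut out by hyperplanes with coefficients at most `T`, whose
coordinate `y 0` is nonzero and divisible only by primes of `S`: the `S`-integral points of the affine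
variety `G = 0`, `x_0 ≠ 0`. -/
def IntW {n s : ℕ} (S : Finset ℕ) (e : Fin s → ℕ) (H T : ℕ) :
    Set (Fin s → MvPolynomial (Fin (n + 1)) ℤ) :=
  {G | (∀ j, G j ∈ Box n (e j) H) ∧ ∃ y : Fin (n + 1) → ℤ, Prim y ∧
    CutOut T (fun k => (y k : ℚ)) ∧ (∀ j, eval y (G j) = 0) ∧ y 0 ≠ 0 ∧
    ∀ p : ℕ, p.Prime → (p : ℤ) ∣ y 0 → p ∈ S}

theorem failsW {n s : ℕ} (S : Finset ℕ) (e : Fin s → ℕ) (K : Finset (Fin (n + 1))) (ε : ℝ)
    (hε : 0 < ε) :
    ∃ C : ℝ, ∀ (δ : ℝ) (H T : ℕ), 1 ≤ T → H ≤ T →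
      (Nat.card (FailsW (n := n) S e K H T ε δ) : ℝ) ≤
        C * (T : ℝ) ^ ((∑ j, ((n + e j).choose n : ℝ)) - δ) := by
  classical
  obtain ⟨C, hC, h⟩ := main_countW (n := n) S e K ε hε
  refine ⟨C, fun δ H T hT hHT => ?_⟩
  have h1 := h 1 δ H T zero_le_one hT hHT
  rw [mul_one] at h1
  refine (card_le_of_sub ?_ (sw_finite _ _ _ _ _ _)).trans h1
  rintro F ⟨hF, y, hy, hcut, hz, hne, hlt⟩
  refine ⟨hF, y, hy, hcut, hz, hne, ?_⟩
  have hT0 : (0 : ℝ) < T := by exact_mod_cast hT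
  have hq0 : (0 : ℝ) < ((qq y : ℕ) : ℝ) := by exact_mod_cast qq_pos y hy.ne
  have hrho : (0 : ℝ) < rho S (∏ i ∈ K, y i) := by exact_mod_cast rho_pos S _
  have hN : N1K S K y = Real.log (rho S (∏ i ∈ K, y i)) := by
    unfold N1K rho
    push_cast
    rw [Real.log_prod]
    intro p hp
    rw [mem_sdiff] at hp
    exact_mod_cast (Nat.prime_of_mem_primeFactors hp.1).ne_zero
  rw [hN] at hlt
  have h2 : ((rho S (∏ i ∈ K, y i) : ℕ) : ℝ) <
      (T : ℝ) ^ ((s : ℝ) - δ) * ((qq y : ℕ) : ℝ) ^ ((∑ j, (e j : ℝ)) + #K - n - 1 - ε) := by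
    rw [Real.rpow_def_of_pos hT0, Real.rpow_def_of_pos hq0, ← Real.exp_add,
      ← Real.log_lt_iff_lt_exp hrho]
    refine hlt.trans_le (le_of_eq ?_)
    unfold ht
    ring
  change ((rho S (∏ i ∈ K, y i) : ℕ) : ℝ) ≤
    1 * ((T : ℝ) ^ ((s : ℝ) - δ) * ((qq y : ℕ) : ℝ) ^ ((∑ j, (e j : ℝ)) + #K - n - 1 - ε))
  rw [one_mul]
  exact h2.le

theorem rho_prod_le' {ι : Type} (S : Finset ℕ) (v : ι → ℤ) (A : Finset ι)
    (hv : ∀ i ∈ A, v i ≠ 0) : rho S (∏ i ∈ A, v i) ≤ ∏ i ∈ A, rho S (v i) := by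
  classical
  induction A using Finset.induction_on with
  | empty => simp [rho]
  | insert a A ha ih =>
    rw [prod_insert ha, prod_insert ha]
    exact (rho_mul_le S _ _ (hv a (mem_insert_self _ _))
      (prod_ne_zero_iff.2 (fun i hi => hv i (mem_insert_of_mem hi)))).trans
      (Nat.mul_le_mul_left _ (ih (fun i hi => hv i (mem_insert_of_mem hi))))

theorem campW {n s : ℕ} (S : Finset ℕ) (e : Fin s → ℕ) (K : Finset (Fin (n + 1)))
    (m : Fin (n + 1) → ℕ) (hm : ∀ i ∈ K, 1 ≤ m i)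
    (hsum : (n : ℝ) + 1 < (∑ j, (e j : ℝ)) + ∑ i ∈ K, (1 - 1 / (m i : ℝ))) :
    ∃ C : ℝ, ∀ (H T : ℕ), 1 ≤ T → H ≤ T →
      (Nat.card (CampW (n := n) S e K m H T) : ℝ) ≤
        C * (T : ℝ) ^ ((∑ j, ((n + e j).choose n : ℝ)) - s) := by
  classical
  set ε : ℝ := (∑ j, (e j : ℝ)) + (∑ i ∈ K, (1 - 1 / (m i : ℝ))) - (n + 1) with hε
  have hε0 : 0 < ε := by rw [hε]; linarith
  obtain ⟨C, hC, h⟩ := main_countW (n := n) S e K ε hε0
  refine ⟨C, fun H T hT hHT => ?_⟩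
  have h1 := h 1 s H T zero_le_one hT hHT
  rw [mul_one] at h1
  refine (card_le_of_sub ?_ (sw_finite _ _ _ _ _ _)).trans h1
  rintro F ⟨hF, y, hy, hcut, hz, hall⟩
  refine ⟨hF, y, hy, hcut, hz, fun i hi => (hall i hi).1, ?_⟩
  have hq1 : (1 : ℝ) ≤ ((qq y : ℕ) : ℝ) := by exact_mod_cast qq_pos y hy.ne
  have hq0 : (0 : ℝ) < ((qq y : ℕ) : ℝ) := by linarith
  change ((rho S (∏ i ∈ K, y i) : ℕ) : ℝ) ≤
    1 * ((T : ℝ) ^ ((s : ℝ) - s) * ((qq y : ℕ) : ℝ) ^ ((∑ j, (e j : ℝ)) + #K - n - 1 - ε))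
  rw [sub_self, Real.rpow_zero, one_mul, one_mul]
  have hone : ∀ i ∈ K, ((rho S (y i) : ℕ) : ℝ) ≤ ((qq y : ℕ) : ℝ) ^ (1 / (m i : ℝ)) := by
    intro i hi
    have hmi : (0 : ℝ) < m i := by exact_mod_cast hm i hi
    have h3 := rho_pow_le S (y i) (hall i hi).1 (m i) (hall i hi).2
    have h4 : ((y i).natAbs : ℤ) ≤ (qq y : ℤ) := by
      rw [← Int.abs_eq_natAbs]; exact le_qq y i
    have h5 : ((rho S (y i) : ℕ) : ℝ) ^ (m i) ≤ ((qq y : ℕ) : ℝ) := by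
      have h6 : rho S (y i) ^ m i ≤ qq y := h3.trans (by exact_mod_cast h4)
      exact_mod_cast h6
    have h9 : ((rho S (y i) : ℕ) : ℝ) =
        (((rho S (y i) : ℕ) : ℝ) ^ (m i)) ^ (1 / (m i : ℝ)) := by
      rw [one_div, Real.pow_rpow_inv_natCast (Nat.cast_nonneg _) (by have := hm i hi; omega)]
    rw [h9]
    exact Real.rpow_le_rpow (by positivity) h5 (by positivity)
  have h10 : ((rho S (∏ i ∈ K, y i) : ℕ) : ℝ) ≤ ∏ i ∈ K, ((rho S (y i) : ℕ) : ℝ) := by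
    exact_mod_cast rho_prod_le' S y K (fun i hi => (hall i hi).1)
  refine (h10.trans (prod_le_prod (fun i _ => Nat.cast_nonneg _) hone)).trans ?_
  rw [← Real.rpow_sum_of_pos hq0]
  refine Real.rpow_le_rpow_of_exponent_le hq1 ?_
  rw [hε, sum_sub_distrib]
  simp only [sum_const, nsmul_eq_mul, mul_one]
  linarith

theorem intW {n s : ℕ} (S : Finset ℕ) (e : Fin s → ℕ) (hsum : n + 1 ≤ ∑ j, e j) :
    ∃ C : ℝ, ∀ (H T : ℕ), 1 ≤ T → H ≤ T →
      (Nat.card (IntW (n := n) S e H T) : ℝ) ≤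
        C * (T : ℝ) ^ ((∑ j, ((n + e j).choose n : ℝ)) - s) := by
  classical
  obtain ⟨C, h⟩ := campW (n := n) S e {0} (fun _ => 2) (fun _ _ => by norm_num) (by
    have h3 : ((n : ℝ) + 1) ≤ ∑ j, (e j : ℝ) := by exact_mod_cast hsum
    rw [sum_singleton]
    push_cast
    linarith)
  refine ⟨C, fun H T hT hHT => (card_le_of_sub ?_ ?_).trans (h H T hT hHT)⟩
  · rintro F ⟨hF, y, hy, hcut, hz, h0, hp⟩
    refine ⟨hF, y, hy, hcut, hz, fun i hi => ?_⟩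
    rw [mem_singleton] at hi
    subst hi
    exact ⟨h0, fun p hpp hpS hdvd => absurd (hp p hpp hdvd) hpS⟩
  · refine (Set.Finite.pi' (fun i => finite_box n (e i) H)).subset ?_
    rintro F ⟨h, _⟩ i
    exact h i

end Pool.Agent.Q256.VW
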